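import Pool.Agent.N107.KM.Mult
import Pool.Agent.Y226.ZR.Rand

/-!
# Special subvarieties of `Y(1)^n`, families of rational curves and the local theorem

A copy (so that the hand-in of MP_6e1a06_nt does not depend on another hand-in) of the definitions and of
`local_family` of `MP_130685_nt.MetricSequences` (helper107).
-/

set_option autoImplicit false


namespace Pool.Agent.N676.Y1

open H294ZP UpperHalfPlane MeasureTheory Filter
open Pool.Agent.N107.KM (Own)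

/-- A special subvariety of dimension `r` of `Y(1)^n`. The constant coordinates are those with
`cls i = none`. The allowed constants are the singular moduli and the numbers which are integral
over the ring generated by `Γ`. -/
structure SpecialVariety (Γ : Set ℂ) (n r : ℕ) where
  cls : Fin n → Option (Fin r)
  surj : ∀ l : Fin r, ∃ i, cls i = some l
  mat : Fin n → Matrix (Fin 2) (Fin 2) ℤ
  det_pos : ∀ i, 0 < (mat i).det
  const : Fin n → ℂ
  allowed : ∀ i, (∃ τ : ℍ, IsCM τ ∧ const i = jj τ) ∨ IsIntegral (Algebra.adjoin ℤ Γ) (const i)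

/-- The points of a special subvariety of `Y(1)^n`. -/
def SpecialVariety.locus {Γ : Set ℂ} {n r : ℕ} (Z : SpecialVariety Γ n r) : Set (Fin n → ℂ) :=
  {x | ∃ z : Fin r → ℍ, ∀ i, (Z.cls i = none → x i = Z.const i) ∧
    ∀ l, Z.cls i = some l → ∃ w : ℍ,
      (w : ℂ) * (Z.mat i 1 0 * z l + Z.mat i 1 1) = Z.mat i 0 0 * z l + Z.mat i 0 1 ∧
      x i = jj w}

/-- Coefficient systems: `c (i, 0, k)` is the coefficient of `s^k t^(d - k)` in the form `P_i`,
and `c (i, 1, k)` the coefficient in the form `Q_i`. -/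
abbrev Coeffs (n d : ℕ) (R : Type) : Type := Fin n × Fin 2 × Fin (d + 1) → R

/-- The value at `(s, t)` of the form `P_i` (`l = 0`) or `Q_i` (`l = 1`) of degree `d`. -/
noncomputable def form {n d : ℕ} (c : Coeffs n d ℤ) (i : Fin n) (l : Fin 2) (s t : ℂ) : ℂ :=
  ∑ k : Fin (d + 1), (c (i, l, k) : ℂ) * s ^ (k : ℕ) * t ^ (d - (k : ℕ))

/-- The rational curve with the parametrization `x_i = P_i (s, t) / (m Q_i (s, t))`. -/
def curve {n d : ℕ} (m : ℤ) (c : Coeffs n d ℤ) : Set (Fin n → ℂ) :=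
  {x | ∃ s t : ℂ, (s ≠ 0 ∨ t ≠ 0) ∧ ∀ i, (m : ℂ) * form c i 1 s t * x i = form c i 0 s t}

/-- The points of `S` on special subvarieties of codimension at least two. -/
def atypical (Γ : Set ℂ) {n : ℕ} (S : Set (Fin n → ℂ)) : Set (Fin n → ℂ) :=
  {x | x ∈ S ∧ ∃ (r : ℕ) (Z : SpecialVariety Γ n r), r + 2 ≤ n ∧ x ∈ Z.locus}

/-- `x` and `x'` are the `j`-invariants of elliptic curves which are connected by an isogeny of
degree `N`. -/
def Isogenous (N : ℕ) (x x' : ℂ) : Prop :=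
  ∃ (τ τ' : ℍ) (g : Matrix (Fin 2) (Fin 2) ℤ), g.det = N ∧
    (τ' : ℂ) * (g 1 0 * τ + g 1 1) = g 0 0 * τ + g 0 1 ∧ x = jj τ ∧ x' = jj τ'

/-- The conclusion of the Zilber-Pink conjecture for the curve `S` with the explicit bound `G`: at most
`G` atypical points, all of them on the subvarieties given by isogenies of degree at most `G` between two
coordinates, and `S` is in no proper special subvariety. -/
def ZilberPink (Γ : Set ℂ) (G : ℕ) {n : ℕ} (S : Set (Fin n → ℂ)) : Prop :=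
  (atypical Γ S).Finite ∧ (atypical Γ S).ncard ≤ G ∧
  (∀ x ∈ atypical Γ S, ∃ j l : Fin n, j ≠ l ∧ ∃ N : ℕ, 0 < N ∧ N ≤ G ∧ Isogenous N (x j) (x l)) ∧
  ∀ (r : ℕ) (Z : SpecialVariety Γ n r), r < n → ¬ S ⊆ Z.locus

/-- The form `P_i` or `Q_i` as a polynomial in `s` (for `t = 1`). -/
noncomputable def poly {R : Type} [CommRing R] {n d : ℕ} (c : Coeffs n d R) (i : Fin n) (l : Fin 2) :
    Polynomial R :=
  ∑ k : Fin (d + 1), Polynomial.C (c (i, l, k)) * Polynomial.X ^ (k : ℕ)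

/-- The resultants (of forms in two variables) of `P_i`, `Q_i` and of `P_i Q_i`, `P_j Q_j` are not zero. -/
def NoCommonZeros {R : Type} [CommRing R] {n d : ℕ} (c : Coeffs n d R) : Prop :=
  (∀ i, (poly c i 0).resultant (poly c i 1) d d ≠ 0) ∧
  ∀ i j, i ≠ j → (poly c i 0 * poly c i 1).resultant (poly c j 0 * poly c j 1) (d + d) (d + d) ≠ 0

/-- The member of the family at the parameter vector `(m, u)`; `m` is the coordinate `none`. -/
noncomputable def member {J : Type} {n d : ℕ} (A : Coeffs n d (MvPolynomial J ℤ))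
    (v : Option J → ℤ) : Set (Fin n → ℂ) :=
  curve (v none) (fun a => MvPolynomial.eval (fun j => v (some j)) (A a))

/-- Special subvarieties in the form used in the proof. -/
def SpecialVariety.toSV {Γ : Set ℂ} {n r : ℕ} (Z : SpecialVariety Γ n r) :
    Pool.Agent.Y226.ZM.SV Γ n r where
  cls := Z.cls
  mat := Z.mat
  det_pos := Z.det_pos
  const := Z.const
  int := fun i => by
    rcases Z.allowed i with ⟨τ, hτ, h⟩ | h
    · rw [h]
      exact (singular_modulus_integral τ hτ).tower_top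
    · exact h

open Pool.Agent.Y226.ZR in
/-- The local theorem: a prime which divides `m` and none of the resultants. -/
theorem good_of_prime (n d : ℕ) (hd : 0 < d) (p : ℕ) (hp : p.Prime) (hpD : 16 * (d + 1) ^ 4 < p) :
    ∃ G : ℕ, ∀ (m : ℤ) (c : Coeffs n d ℤ), m ≠ 0 → (p : ℤ) ∣ m →
      ¬ (p : ℤ) ∣ MvPolynomial.eval c (Rr n d) →
      ∀ Γ : Finset ℂ, (∀ γ ∈ Γ, ∃ m : ℕ, ¬ p ∣ m ∧ IsIntegral ℤ ((m : ℂ) * γ)) →
      ZilberPink (Γ : Set ℂ) G (curve m c) := by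
  obtain ⟨G, hG⟩ := rand_prime n d hd p hp hpD
  refine ⟨G, fun m c hm hpm hR Γ hΓ => ?_⟩
  obtain ⟨h1, h2, h3, h4⟩ := hG m c hm hpm hR Γ hΓ
  have hsub : atypical Γ (curve m c) ⊆
      {x | x ∈ crvR m c ∧
        ∃ (r : ℕ) (Z : Pool.Agent.Y226.ZM.SV (Γ : Set ℂ) n r), r + 2 ≤ n ∧ x ∈ Z.locus} := by
    rintro x ⟨hx, r, Z, hr, hZ⟩
    exact ⟨hx, r, Z.toSV, hr, hZ⟩
  refine ⟨h2.subset hsub, (Set.ncard_le_ncard hsub h2).trans h3, ?_, ?_⟩
  · rintro x ⟨hx, r, Z, hr, hZ⟩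
    obtain ⟨j, l, hjl, N, hN0, hN, τ, τ', a, b, c, d, hdet, hτ, hxj, hxl⟩ :=
      h1 x hx r Z.toSV hr hZ
    refine ⟨j, l, hjl, N, hN0, hN, τ, τ', !![a, b; c, d], ?_, ?_, hxj, hxl⟩
    · rw [Matrix.det_fin_two_of]
      exact hdet
    · simpa using hτ
  · intro r Z hr hsub'
    exact h4 r Z.toSV hr hsub'

theorem zilberPink_mono {Γ : Set ℂ} {G G' : ℕ} (h : G ≤ G') {n : ℕ} {S : Set (Fin n → ℂ)}
    (hS : ZilberPink Γ G S) : ZilberPink Γ G' S := by
  refine ⟨hS.1, hS.2.1.trans h, fun x hx => ?_, hS.2.2.2⟩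
  obtain ⟨j, l, hjl, N, hN0, hN, hI⟩ := hS.2.2.1 x hx
  exact ⟨j, l, hjl, N, hN0, hN.trans h, hI⟩

section
variable {J : Type} [Fintype J] [DecidableEq J]

open Pool.Agent.Y226.ZR in
/-- The local theorem for a family: there are `R ≠ 0` and `T₀` such that everything is bounded for the
parameter vectors with the property `Own R T₀ T'`. -/
theorem local_family (n d : ℕ) (hd : 0 < d) (A : Coeffs n d (MvPolynomial J ℤ))
    (hA : NoCommonZeros A) (Γ : Finset ℂ) (hΓ : ∀ γ ∈ Γ, IsAlgebraic ℚ γ) :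
    ∃ (R : MvPolynomial J ℤ) (T₀ : ℕ), R ≠ 0 ∧ ∀ T' : ℕ, ∃ G : ℕ, ∀ c : Option J → ℤ,
      Own R T₀ T' c → ZilberPink (Γ : Set ℂ) G (member A c) := by
  classical
  -- the polynomial
  set R : MvPolynomial J ℤ := MvPolynomial.aeval A (Rr n d) with hR
  have hR0 : R ≠ 0 := by
    rw [hR]
    unfold Rr
    rw [map_mul, map_prod, map_prod]
    refine mul_ne_zero (Finset.prod_ne_zero_iff.2 fun i _ => ?_)
      (Finset.prod_ne_zero_iff.2 fun q hq => ?_)
    · have h1 := rs1_map (MvPolynomial.aeval A : MvPolynomial (Idx n d) ℤ →ₐ[ℤ] MvPolynomial J ℤ).toRingHom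
        (MvPolynomial.X : Idx n d → MvPolynomial (Idx n d) ℤ) i
      simp only [AlgHom.toRingHom_eq_coe, RingHom.coe_coe, MvPolynomial.aeval_X] at h1
      rw [h1]
      exact hA.1 i
    · have h1 := rs2_map (MvPolynomial.aeval A : MvPolynomial (Idx n d) ℤ →ₐ[ℤ] MvPolynomial J ℤ).toRingHom
        (MvPolynomial.X : Idx n d → MvPolynomial (Idx n d) ℤ) q.1 q.2
      simp only [AlgHom.toRingHom_eq_coe, RingHom.coe_coe, MvPolynomial.aeval_X] at h1
      rw [h1]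
      exact hA.2 q.1 q.2 (Finset.mem_filter.1 hq).2
  have hReval : ∀ u : J → ℤ, MvPolynomial.eval u R =
      MvPolynomial.eval (fun a => MvPolynomial.eval u (A a)) (Rr n d) := by
    intro u
    rw [hR, MvPolynomial.map_aeval]
    have e : (MvPolynomial.eval u).comp (algebraMap ℤ (MvPolynomial J ℤ)) = RingHom.id ℤ :=
      Subsingleton.elim _ _
    rw [e]
    rfl
  have hden : ∀ γ : ℂ, ∃ m : ℕ, γ ∈ Γ → 0 < m ∧ IsIntegral ℤ ((m : ℂ) * γ) := by
    intro γ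
    by_cases h : γ ∈ Γ
    · obtain ⟨m, hm⟩ := exists_den (hΓ γ h)
      exact ⟨m, fun _ => hm⟩
    · exact ⟨0, fun h' => absurd h' h⟩
  choose M hM using hden
  set T₀ := 16 * (d + 1) ^ 4 + ∑ γ ∈ Γ, M γ with hT₀
  refine ⟨R, T₀, hR0, fun T' => ?_⟩
  have hpr : ∀ p : ℕ, ∃ G : ℕ, p.Prime → 16 * (d + 1) ^ 4 < p →
      ∀ (m : ℤ) (c : Coeffs n d ℤ), m ≠ 0 → (p : ℤ) ∣ m →
      ¬ (p : ℤ) ∣ MvPolynomial.eval c (Rr n d) →
      ∀ Γ : Finset ℂ, (∀ γ ∈ Γ, ∃ m : ℕ, ¬ p ∣ m ∧ IsIntegral ℤ ((m : ℂ) * γ)) →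
      ZilberPink (Γ : Set ℂ) G (curve m c) := by
    intro p
    by_cases h : p.Prime ∧ 16 * (d + 1) ^ 4 < p
    · obtain ⟨G, hG⟩ := good_of_prime n d hd p h.1 h.2
      exact ⟨G, fun _ _ => hG⟩
    · exact ⟨0, fun h1 h2 => absurd ⟨h1, h2⟩ h⟩
  choose Gp hGp using hpr
  refine ⟨∑ p ∈ Finset.range (T' + 1), Gp p, ?_⟩
  rintro c ⟨h0, p, hp, hpT₀, hpT', hpm, hpR⟩
  have hpD : 16 * (d + 1) ^ 4 < p := by omega
  have hΓp : ∀ γ ∈ Γ, ∃ m : ℕ, ¬ p ∣ m ∧ IsIntegral ℤ ((m : ℂ) * γ) := by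
    intro γ hγ
    obtain ⟨h5, h6⟩ := hM γ hγ
    refine ⟨M γ, fun h7 => ?_, h6⟩
    have h8 := Nat.le_of_dvd h5 h7
    have h9 : M γ ≤ ∑ γ ∈ Γ, M γ := Finset.single_le_sum (fun _ _ => Nat.zero_le _) hγ
    omega
  have hle : Gp p ≤ ∑ p ∈ Finset.range (T' + 1), Gp p :=
    Finset.single_le_sum (fun _ _ => Nat.zero_le _) (Finset.mem_range.2 (by omega))
  rw [hReval] at hpR
  exact zilberPink_mono hle (hGp p hp hpD _ _ h0 hpm hpR Γ hΓp)

end

end Pool.Agent.N676.Y1
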